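import Pool.Agent.H48.AUL.Final

/-!
# Strict stability of the positive solution on AUL epigraphs

For every positive reaction `f` and every asymptotically uniformly Lipschitz epigraph
`Ω` in dimension `d = n + 1 ≥ 2`, every positive bounded classical solution `u` of
`-Δu = f(u)` in `Ω`, `u = 0` on `∂Ω`, is strictly stable:
the generalized principal eigenvalue of `-Δ - f'(u)` on `Ω` is positive.

The definitions are in `Pool/Agent/H48/AUL/Defs.lean`.

Idea of the proof.  (1) Sliding with explicit barriers gives monotonicity and a quantitative
Hopf lemma for (limit) solutions on Lipschitz epigraphs; with Jacobi's identity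
`∫ |∇ψ|² + (Δw/w) ψ² = ∫ w² |∇(ψ/w)|²` for difference quotients `w` in the direction of the
axis and a one-dimensional Friedrichs inequality for `ψ/w` this gives stability at infinity
of the solution on an AUL epigraph.  (2) Sliding on the AUL epigraph itself gives that `u` is
increasing in the vertical direction.  (3) On bounded parts the vertical difference quotients
are bounded below up to the boundary, and the Friedrichs inequality for `ψ/w` shows that the
form controls the `L²` norm on bounded parts; with (1) it controls the whole `L²` norm.
-/

set_option autoImplicit false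

open Set MeasureTheory H48.AUL

namespace Pool.Agent.Results.MP_68b192_an.AULStrictStability

theorem result (n : ℕ) (_hn : 1 ≤ n) (f : ℝ → ℝ) (hf : PositiveReaction f)
    (φ : EuclideanSpace ℝ (Fin n) → ℝ) (hφ : ContDiff ℝ 2 φ) (hΩ : UniformC2Holder (Epi φ))
    (hAUL : AsympUnifLip (Epi φ)) (u : EuclideanSpace ℝ (Fin (n + 1)) → ℝ)
    (hu : PosBddSol f (Epi φ) u) :
    0 < genEig volume (fun x => derivWithin f (Icc 0 1) (u x)) (Epi φ) :=
  main_theorem hf hφ hΩ hAUL hu

end Pool.Agent.Results.MP_68b192_an.AULStrictStability
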